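import Pool.Agent.TH997.DD.Stm

/-! Syndetic and sparse sets of indices exclude each other. -/

set_option autoImplicit false

namespace Pool.Agent.Helper488DD

open Finset Filter Topology Pool.Agent.H612.LR Pool.Agent.TH997.DD
open scoped Classical

/-- a syndetic set is not sparse -/
theorem excl (l : Rec) (h1 : Synd l) (h2 : Sparse l) : False := by
  obtain ⟨b, hb⟩ := h1
  obtain ⟨C, hC⟩ := h2
  choose g hg1 hg2 hg3 using hb
  set ε : ℝ := (1 / 2 : ℝ) ^ l.length with hε
  have hε0 : 0 < ε := by positivity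
  have hcount : ∀ M : ℕ, M ≤ ((range ((b + 1) * M)).filter (fun n => seq l n ≤ 0)).card := by
    intro M
    have hinj : Set.InjOn (fun j => g ((b + 1) * j)) (range M : Set ℕ) := by
      intro i _ j _ hij
      simp only at hij
      have a1 := hg1 ((b + 1) * i)
      have a2 := hg2 ((b + 1) * i)
      have a3 := hg1 ((b + 1) * j)
      have a4 := hg2 ((b + 1) * j)
      rcases lt_trichotomy i j with h | h | h
      · have : (b + 1) * (i + 1) ≤ (b + 1) * j := Nat.mul_le_mul_left _ h
        have e : (b + 1) * (i + 1) = (b + 1) * i + (b + 1) := by ring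
        omega
      · exact h
      · have : (b + 1) * (j + 1) ≤ (b + 1) * i := Nat.mul_le_mul_left _ h
        have e : (b + 1) * (j + 1) = (b + 1) * j + (b + 1) := by ring
        omega
    have h3 := Finset.card_le_card_of_injOn (s := range M)
      (t := (range ((b + 1) * M)).filter (fun n => seq l n ≤ 0)) (fun j => g ((b + 1) * j)) (by
        intro j hj
        have hj' : j < M := by simpa using hj
        rw [Finset.mem_coe, Finset.mem_filter, Finset.mem_range]
        refine ⟨?_, hg3 _⟩
        show g ((b + 1) * j) < (b + 1) * M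
        have a2 := hg2 ((b + 1) * j)
        have : (b + 1) * (j + 1) ≤ (b + 1) * M := Nat.mul_le_mul_left _ hj'
        have e : (b + 1) * (j + 1) = (b + 1) * j + (b + 1) := by ring
        omega) hinj
    rwa [Finset.card_range] at h3
  have ht : Tendsto (fun M : ℕ => Real.log (((b + 1) * M : ℕ) : ℝ) ^ ε) atTop atTop := by
    refine (tendsto_rpow_atTop hε0).comp (Real.tendsto_log_atTop.comp ?_)
    refine tendsto_natCast_atTop_atTop.comp ?_
    exact tendsto_atTop_mono (fun M => Nat.le_mul_of_pos_left M (Nat.succ_pos b)) tendsto_id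
  obtain ⟨M, hM1, hM2⟩ := ((ht.eventually_gt_atTop (max 0 (C * (b + 1)))).and
    (eventually_ge_atTop 2)).exists
  have hL0 : 0 < Real.log (((b + 1) * M : ℕ) : ℝ) ^ ε := (le_max_left _ _).trans_lt hM1
  have hL1 := (le_max_right _ _).trans_lt hM1
  have hN2 : 2 ≤ (b + 1) * M := le_trans hM2 (Nat.le_mul_of_pos_left M (Nat.succ_pos b))
  have h4 := hC ((b + 1) * M) hN2
  have h5 : (M : ℝ) ≤ C * ((((b + 1) * M : ℕ) : ℝ) / Real.log (((b + 1) * M : ℕ) : ℝ) ^ ε) :=
    le_trans (by exact_mod_cast hcount M) h4
  have hM0 : (0 : ℝ) < M := by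
    have : 0 < M := by omega
    exact_mod_cast this
  rw [mul_div_assoc', le_div_iff₀ hL0] at h5
  have h6 : C * (((b + 1) * M : ℕ) : ℝ) = (C * (b + 1)) * M := by
    push_cast
    ring
  rw [h6] at h5
  have h7 : (M : ℝ) * (C * (b + 1)) < M * Real.log (((b + 1) * M : ℕ) : ℝ) ^ ε :=
    mul_lt_mul_of_pos_left hL1 hM0
  linarith

end Pool.Agent.Helper488DD
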